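import Pool.Agent.KS6_89.RI.UB

set_option autoImplicit false

/-!
# Randomized integration of smooth functions: no factor depending on the dimension
-/

namespace Pool.Agent.KS6_89.RI

open Pool.Agent.N799.RI Pool.Agent.N799.RI.StepH MeasureTheory Finset

/-- a randomized quadrature formula -/
def HasQuad (d : ℕ) (G : Set ((Fin d → ℝ) → ℝ)) (n : ℕ) (ε : ℝ) : Prop :=
  ∃ (Ω : Type) (_ : MeasurableSpace Ω) (P : Measure Ω) (_ : IsProbabilityMeasure P)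
    (pts : Fin n → Ω → (Fin d → ℝ)) (w : Fin n → Ω → ℝ),
    (∀ k, Measurable (pts k)) ∧ (∀ k, BM (w k)) ∧
    ∀ g ∈ G, ∫ ω, |∫ x, g x ∂(Qd d) - ∑ k, w k ω * g (pts k ω)| ∂P ≤ ε

theorem quad_mono {d : ℕ} {G : Set ((Fin d → ℝ) → ℝ)} {n : ℕ} {ε ε' : ℝ} (h : HasQuad d G n ε)
    (he : ε ≤ ε') : HasQuad d G n ε' := by
  obtain ⟨Ω, mΩ, P, hP, pts, c, h1, h2, h3⟩ := h
  exact ⟨Ω, mΩ, P, hP, pts, c, h1, h2, fun g hg => (h3 g hg).trans he⟩

theorem exists_step (P : ℕ → Prop) (h0 : P 0) (M : ℕ) (hM : ¬ P M) : ∃ L, P L ∧ ¬ P (L + 1) := by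
  by_contra hcon
  push Not at hcon
  exact hM (Nat.rec h0 (fun n ih => hcon n ih) M)

/-- the constant -/
noncomputable def CC (k : ℕ) : ℝ := 3 * (12 * k * 4 ^ (k + 2) : ℝ) ^ k

theorem rate_eq (k d n : ℕ) (hn : 1 ≤ n) : (n : ℝ) ^ (-(k : ℝ) / d - 1 / 2) =
    (((n : ℝ) ^ (1 / (d : ℝ))) ^ k)⁻¹ * (Real.sqrt n)⁻¹ := by
  have hn0 : (0 : ℝ) < n := by exact_mod_cast hn
  rw [Real.rpow_sub hn0, Real.sqrt_eq_rpow, div_eq_mul_inv]
  congr 1
  rw [← Real.rpow_natCast, ← Real.rpow_mul hn0.le, ← Real.rpow_neg hn0.le]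
  congr 1
  ring

theorem quad (k d n : ℕ) (hd : 1 ≤ d) (hn : 1 ≤ n) :
    HasQuad d (GG d k) n (CC k * (n : ℝ) ^ (-(k : ℝ) / d - 1 / 2)) := by
  have hn0 : (0 : ℝ) < n := by exact_mod_cast hn
  have hd0 : (0 : ℝ) < d := by exact_mod_cast hd
  have hG : ∀ g ∈ GG d k, BM g := fun g hg => (gg_bm hd hg).1
  obtain ⟨x, hx⟩ : ∃ x : ℝ, x = (n : ℝ) ^ (1 / (d : ℝ)) := ⟨_, rfl⟩
  have hx0 : 0 < x := by rw [hx]; positivity
  have hxd : x ^ d = n := by
    rw [hx, ← Real.rpow_natCast, ← Real.rpow_mul hn0.le, one_div, inv_mul_cancel₀ hd0.ne',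
      Real.rpow_one]
  obtain ⟨D, hD⟩ : ∃ D : ℝ, D = 12 * k * 4 ^ (k + 2) := ⟨_, rfl⟩
  have hsn : 0 < Real.sqrt n := Real.sqrt_pos.2 hn0
  have hsq : Real.sqrt n ^ 2 = n := Real.sq_sqrt hn0.le
  have hCC : CC k * (n : ℝ) ^ (-(k : ℝ) / d - 1 / 2) = 3 * D ^ k * ((x ^ k)⁻¹ * (Real.sqrt n)⁻¹) := by
    rw [rate_eq k d n hn, ← hx, hD]
    rfl
  rw [hCC]
  -- plain Monte Carlo
  have hMC : x ^ k ≤ D ^ k → HasQuad d (GG d k) n (3 * D ^ k * ((x ^ k)⁻¹ * (Real.sqrt n)⁻¹)) := by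
    intro hxD
    have h1 := h_QUAD (Fin d → ℝ) (Qd d) (Fin d → ℕ) (EE fun _ _ => 0) (GG d k) ∅ 0 n 1
      (by simp) hn zero_le_one hG (scheme_empty d k hd _)
    have h2 : HasQuad d (GG d k) (0 + n) (Real.sqrt (1 / n)) := h1
    rw [Nat.zero_add] at h2
    refine quad_mono h2 ?_
    rw [Real.sqrt_div' _ hn0.le, Real.sqrt_one, one_div]
    have h3 : 1 ≤ D ^ k * (x ^ k)⁻¹ := by
      rw [← div_eq_mul_inv, one_le_div₀ (by positivity)]
      exact hxD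
    have h4 : 0 < (Real.sqrt n)⁻¹ := by positivity
    calc (Real.sqrt n)⁻¹ = 1 * (Real.sqrt n)⁻¹ := by ring
      _ ≤ (3 * (D ^ k * (x ^ k)⁻¹)) * (Real.sqrt n)⁻¹ :=
          mul_le_mul_of_nonneg_right (by linarith) h4.le
      _ = 3 * D ^ k * ((x ^ k)⁻¹ * (Real.sqrt n)⁻¹) := by ring
  rcases Nat.eq_zero_or_pos k with hk | hk
  · exact hMC (by rw [hk, pow_zero, pow_zero])
  have hk0 : (1 : ℝ) ≤ k := by exact_mod_cast hk
  have hD0 : 0 < D := by rw [hD]; positivity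
  have h4one : (1 : ℝ) ≤ 4 ^ (k + 2) := one_le_pow₀ (by norm_num)
  rcases Nat.lt_or_ge n (4 * (4 ^ (k + 1) * (6 * k) ^ d)) with hcase | hcase
  · refine hMC (pow_le_pow_left₀ hx0.le ?_ k)
    refine le_of_pow_le_pow_left₀ (n := d) (by omega) hD0.le ?_
    rw [hxd]
    have h1 : (n : ℝ) ≤ 4 * (4 ^ (k + 1) * (6 * k) ^ d) := by exact_mod_cast hcase.le
    have h2 : (4 : ℝ) ^ (k + 2) ≤ (4 ^ (k + 2)) ^ d := le_self_pow₀ h4one (by omega)
    calc (n : ℝ) ≤ 4 * (4 ^ (k + 1) * (6 * k) ^ d) := h1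
      _ = 4 ^ (k + 2) * (6 * (k:ℝ)) ^ d := by ring
      _ ≤ (4 ^ (k + 2)) ^ d * (6 * (k:ℝ)) ^ d := mul_le_mul_of_nonneg_right h2 (by positivity)
      _ = (6 * k * 4 ^ (k + 2)) ^ d := by rw [← mul_pow]; ring
      _ ≤ D ^ d := by
          rw [hD]
          refine pow_le_pow_left₀ (by positivity) ?_ d
          have : (0:ℝ) < k * 4 ^ (k + 2) := by positivity
          nlinarith
  · obtain ⟨L, hL1, hL2⟩ := exists_step
      (fun L => 4 * (4 ^ (k + 1) * (6 * k * 2 ^ L) ^ d) ≤ n) (by simpa using hcase) n (by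
        rw [not_le]
        have h1 : 2 ^ n ≤ (6 * k * 2 ^ n) ^ d := by
          have h2 : 2 ^ n ≤ 6 * k * 2 ^ n := Nat.le_mul_of_pos_left _ (by omega)
          refine h2.trans (Nat.le_self_pow (by omega) _)
        have h3 : n < 2 ^ n := Nat.lt_two_pow_self
        have h4 : 1 ≤ 4 ^ (k + 1) := Nat.one_le_pow _ _ (by norm_num)
        nlinarith)
    simp only [not_le] at hL2
    obtain ⟨e, he⟩ := h_BASIS k hk
    have hsch := scheme_level k d hk hd e he L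
    have hle := nL_le k d L hd
    obtain ⟨N, hN⟩ : ∃ N, n = nL k d L + N := ⟨n - nL k d L, by omega⟩
    have hN2 : n ≤ 2 * N := by omega
    have hN1 : 1 ≤ N := by omega
    have h1 := h_QUAD (Fin d → ℝ) (Qd d) (Fin d → ℕ) (EE e) (GG d k) (JJ k d e L) (nL k d L) N
      (4 * ((1 / 4 : ℝ) ^ L) ^ k) (fun m hm => (t_ORTH k d e he {m} fun m' hm' => by
        rw [Finset.mem_singleton] at hm'; rw [hm']; exact jj_good hm).1 m (Finset.mem_singleton_self m))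
      hN1 (by positivity) hG hsch
    have h2 : HasQuad d (GG d k) (nL k d L + N) (Real.sqrt (4 * ((1 / 4 : ℝ) ^ L) ^ k / N)) := h1
    rw [← hN] at h2
    refine quad_mono h2 ?_
    have hxL : x ≤ D * 2 ^ L := by
      refine le_of_pow_le_pow_left₀ (n := d) (by omega) (by positivity) ?_
      rw [hxd]
      have h3 : (n : ℝ) ≤ 4 * (4 ^ (k + 1) * (6 * k * 2 ^ (L + 1)) ^ d) := by exact_mod_cast hL2.le
      have h4 : (4 : ℝ) ^ (k + 2) ≤ (4 ^ (k + 2)) ^ d := le_self_pow₀ h4one (by omega)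
      calc (n : ℝ) ≤ 4 * (4 ^ (k + 1) * (6 * k * 2 ^ (L + 1)) ^ d) := h3
        _ = 4 ^ (k + 2) * (6 * (k:ℝ) * 2 ^ (L + 1)) ^ d := by ring
        _ ≤ (4 ^ (k + 2)) ^ d * (6 * (k:ℝ) * 2 ^ (L + 1)) ^ d :=
            mul_le_mul_of_nonneg_right h4 (by positivity)
        _ = (D * 2 ^ L) ^ d := by rw [← mul_pow, hD]; ring
    have h5 : ((1 / 4 : ℝ) ^ L) ^ k ≤ (D ^ k * (x ^ k)⁻¹) ^ 2 := by
      have h6 : (1 / 4 : ℝ) ^ L ≤ (D * x⁻¹) ^ 2 := by
        have h7 : (1 / 2 : ℝ) ^ L ≤ D * x⁻¹ := by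
          rw [← div_eq_mul_inv, le_div_iff₀ hx0, one_div, inv_pow, inv_mul_le_iff₀ (by positivity)]
          linarith
        have h8 : (1 / 4 : ℝ) ^ L = ((1 / 2 : ℝ) ^ L) ^ 2 := by
          rw [← pow_mul, mul_comm L 2, pow_mul]
          norm_num
        rw [h8]
        exact pow_le_pow_left₀ (by positivity) h7 2
      calc ((1 / 4 : ℝ) ^ L) ^ k ≤ ((D * x⁻¹) ^ 2) ^ k := pow_le_pow_left₀ (by positivity) h6 k
        _ = (D ^ k * (x ^ k)⁻¹) ^ 2 := by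
            rw [← pow_mul, mul_comm 2 k, pow_mul, mul_pow, inv_pow]
    have hN0 : (0 : ℝ) < N := by exact_mod_cast hN1
    have hNn : (n : ℝ) ≤ 2 * N := by exact_mod_cast hN2
    apply Real.sqrt_le_iff.2
    refine ⟨by positivity, ?_⟩
    have h9 : (3 * D ^ k * ((x ^ k)⁻¹ * (Real.sqrt n)⁻¹)) ^ 2 =
        9 * (D ^ k * (x ^ k)⁻¹) ^ 2 / n := by
      have : (3 * D ^ k * ((x ^ k)⁻¹ * (Real.sqrt n)⁻¹)) ^ 2 =
        9 * (D ^ k * (x ^ k)⁻¹) ^ 2 * (Real.sqrt n ^ 2)⁻¹ := by ring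
      rw [this, hsq, div_eq_mul_inv]
    rw [h9, div_le_div_iff₀ hN0 hn0]
    have h10 : 0 ≤ (D ^ k * (x ^ k)⁻¹) ^ 2 := by positivity
    have h11 : 0 ≤ ((1 / 4 : ℝ) ^ L) ^ k := by positivity
    calc 4 * ((1 / 4 : ℝ) ^ L) ^ k * n ≤ 4 * ((1 / 4 : ℝ) ^ L) ^ k * (2 * N) :=
          mul_le_mul_of_nonneg_left hNn (by positivity)
      _ ≤ 4 * (D ^ k * (x ^ k)⁻¹) ^ 2 * (2 * N) := by
          refine mul_le_mul_of_nonneg_right (by linarith) (by positivity)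
      _ ≤ 9 * (D ^ k * (x ^ k)⁻¹) ^ 2 * N := by nlinarith [mul_nonneg h10 hN0.le]

theorem clamp_mem {d : ℕ} (x : Fin d → ℝ) : clamp x ∈ cube d := fun _ =>
  ⟨le_max_left _ _, max_le zero_le_one (min_le_left _ _)⟩

theorem clamp_meas (d : ℕ) : Measurable (clamp : (Fin d → ℝ) → (Fin d → ℝ)) := by
  unfold clamp
  refine measurable_pi_lambda _ fun i => ?_
  exact measurable_const.max (measurable_const.min (measurable_pi_apply i))

/-- randomized linear formulas with `n` function values -/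
theorem formula (k d n : ℕ) (hd : 1 ≤ d) (hn : 1 ≤ n) :
    ∃ (Ω : Type) (_ : MeasurableSpace Ω) (P : Measure Ω) (_ : IsProbabilityMeasure P)
    (pts : Fin n → Ω → (Fin d → ℝ)) (w : Fin n → Ω → ℝ),
    (∀ j, Measurable (pts j)) ∧ (∀ j ω, pts j ω ∈ cube d) ∧ (∀ j, BM (w j)) ∧
    ∀ f ∈ FF d k, (Measurable fun ω => |(∫ x in cube d, f x) - ∑ j, w j ω * f (pts j ω)|) ∧
      (Integrable (fun ω => |(∫ x in cube d, f x) - ∑ j, w j ω * f (pts j ω)|) P) ∧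
      (∫ ω, |(∫ x in cube d, f x) - ∑ j, w j ω * f (pts j ω)| ∂P ≤
      CC k * (n : ℝ) ^ (-(k : ℝ) / d - 1 / 2)) := by
  obtain ⟨Ω, mΩ, P, hP, pts, w, h1, h2, h3⟩ := quad k d n hd hn
  refine ⟨Ω, mΩ, P, hP, fun j ω => clamp (pts j ω), w, fun j => (clamp_meas d).comp (h1 j),
    fun j ω => clamp_mem _, h2, fun f hf => ?_⟩
  have hg := t_CL d k f hd hf
  have hI : (∫ x in cube d, f x) = ∫ x, f (clamp x) ∂(Qd d) := t_INT d f
  have hB : BM fun ω => (∫ x in cube d, f x) - ∑ j, w j ω * f (clamp (pts j ω)) := by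
    refine bm_sub (bm_const _) (bm_sum _ fun j _ => bm_mul (h2 j) ?_)
    exact ⟨hg.1.comp (h1 j), 1, fun ω => hg.2 _⟩
  refine ⟨hB.1.abs, (bm_int P hB).abs, ?_⟩
  rw [hI]
  exact h3 _ ⟨f, hf, rfl⟩

theorem upper_le {Ω : Type} [MeasurableSpace Ω] (μ : Measure Ω) (g : Ω → ENNReal)
    (hg : Measurable g) : upper μ g ≤ ∫⁻ ω, g ω ∂μ := by
  unfold upper
  exact iInf_le_of_le g (iInf_le_of_le hg (iInf_le_of_le (fun _ => le_rfl) le_rfl))

theorem eran_le (k d n : ℕ) (hd : 1 ≤ d) (hn : 1 ≤ n) :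
    eran n d k ≤ ENNReal.ofReal (CC k * (n : ℝ) ^ (-(k : ℝ) / d - 1 / 2)) := by
  obtain ⟨Ω, mΩ, P, hP, pts, w, h1, h0, h2, h3⟩ := formula k d n hd hn
  choose A hA using fun ω : Ω => t_ALG (cube d) n (fun i => ⟨pts i ω, h0 i ω⟩)
    (fun y => ∑ i, w i ω * y i)
  unfold eran
  refine iInf_le_of_le ⟨Ω, mΩ, P, hP, A⟩ (iInf_le_of_le ?_ ?_)
  · unfold RAlg.cardOn
    refine iSup_le fun f => iSup_le fun _ => ?_
    simp only
    have h4 : (fun ω => (((A ω).card fun x : cube d => f x : ℕ) : ENNReal)) = fun _ => (n : ENNReal) := by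
      funext ω
      rw [(hA ω _).2]
    rw [h4]
    refine (upper_le P _ measurable_const).trans ?_
    simp
  · unfold RAlg.err
    refine iSup_le fun f => iSup_le fun hf => ?_
    simp only
    obtain ⟨h5, h6, h7⟩ := h3 f hf
    have h4 : (fun ω => ENNReal.ofReal |(∫ x in cube d, f x) - (A ω).run fun x : cube d => f x|) =
        fun ω => ENNReal.ofReal |(∫ x in cube d, f x) - ∑ j, w j ω * f (pts j ω)| := by
      funext ω
      rw [(hA ω _).1]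
    rw [h4]
    refine (upper_le P _ h5.ennreal_ofReal).trans ?_
    rw [← ofReal_integral_eq_lintegral_ofReal h6 (Filter.Eventually.of_forall fun ω => abs_nonneg _)]
    exact ENNReal.ofReal_le_ofReal h7

theorem isLeast (k : ℕ) : IsLeast {t : ℝ | ∃ C : ℝ, ∀ d n : ℕ, 1 ≤ d → 1 ≤ n →
    eran n d k ≤ ENNReal.ofReal (C * (d : ℝ) ^ t * (n : ℝ) ^ (-(k : ℝ) / d - 1 / 2))} 0 := by
  constructor
  · refine ⟨CC k, fun d n hd hn => ?_⟩
    rw [Real.rpow_zero, mul_one]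
    exact eran_le k d n hd hn
  · intro t ht
    by_contra hcon
    push Not at hcon
    obtain ⟨C, hC⟩ := ht
    obtain ⟨c, hc, hlow⟩ := h_LB k
    have h1 : ∀ d : ℕ, 1 ≤ d → c ≤ C * (d : ℝ) ^ t := by
      intro d hd
      have h2 := (hlow d hd).trans (hC d 1 hd le_rfl)
      rw [Nat.cast_one, Real.one_rpow, mul_one] at h2
      by_contra hlt
      push Not at hlt
      have h3 : ENNReal.ofReal (C * (d : ℝ) ^ t) < ENNReal.ofReal c :=
        (ENNReal.ofReal_lt_ofReal_iff hc).mpr hlt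
      exact absurd h2 (not_le.mpr h3)
    have h4 : Filter.Tendsto (fun d : ℕ => C * (d : ℝ) ^ t) Filter.atTop (nhds (C * 0)) := by
      apply Filter.Tendsto.const_mul
      have h5 := tendsto_rpow_neg_atTop (y := -t) (by linarith)
      simp only [neg_neg] at h5
      exact h5.comp tendsto_natCast_atTop_atTop
    rw [mul_zero] at h4
    have h6 : c ≤ 0 := by
      apply ge_of_tendsto h4
      filter_upwards [Filter.eventually_ge_atTop 1] with d hd using h1 d hd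
    linarith

end Pool.Agent.KS6_89.RI
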