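import Pool.Graph.R_pool_sql_team_seeded_63374d34.N799.RI.L_STEP
import Pool.Graph.R_pool_sql_team_seeded_63374d34.N799.RI.L_VAR
import Pool.Graph.R_pool_sql_team_seeded_63374d34.N799.RI.L_EXP

set_option autoImplicit false

/-!
# One step of the randomized approximation: importance sampling with the Christoffel density
-/

namespace Pool.Agent.KS6_89.RI

open Pool.Agent.N799.RI Pool.Agent.N799.RI.StepH MeasureTheory Finset

/-- a bounded measurable function divided by a measurable function which is at least `1 / 2` -/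
theorem bm_div {X : Type} [MeasurableSpace X] {f ρ : X → ℝ} (hf : BM f) (hρ : Measurable ρ)
    (h : ∀ x, 1 / 2 ≤ ρ x) : BM (fun x => f x / ρ x) := by
  obtain ⟨h1, B, hB⟩ := hf
  refine ⟨h1.div hρ, B * 2, fun x => ?_⟩
  have h2 : 0 < ρ x := by linarith [h x]
  rw [abs_div, abs_of_pos h2, div_le_iff₀ h2]
  have h3 := hB x
  have h4 := h x
  have h5 := abs_nonneg (f x)
  nlinarith

theorem t_STEP1 (h1 : S_VAR) (h2 : S_EXP) : S_STEP1 := by
  classical
  intro X _ lam _ ι b M hON hM N hN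
  obtain ⟨hb, hn, ho⟩ := hON
  have hN0 : (0 : ℝ) < N := by exact_mod_cast hN
  obtain ⟨K, hK⟩ : ∃ K : ℝ, K = M.card := ⟨_, rfl⟩
  have hK0 : 0 < K := by rw [hK]; exact_mod_cast hM.card_pos
  obtain ⟨s, hs⟩ : ∃ s : X → ℝ, s = fun x => ∑ m ∈ M, b m x ^ 2 := ⟨_, rfl⟩
  have hsB : BM s := by rw [hs]; exact bm_sum _ fun m hm => bm_sq (hb m hm)
  have hs0 : ∀ x, 0 ≤ s x := fun x => by rw [hs]; exact sum_nonneg fun m _ => sq_nonneg _
  obtain ⟨ρ, hρ⟩ : ∃ ρ : X → ℝ, ρ = fun x => 1 / 2 + (1 / (2 * K)) * s x := ⟨_, rfl⟩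
  have hρB : BM ρ := by rw [hρ]; exact bm_add (bm_const _) (bm_mul (bm_const _) hsB)
  have hρ1 : ∀ x, 1 / 2 ≤ ρ x := fun x => by
    rw [hρ]
    have := hs0 x
    have h3 : 0 ≤ (1 / (2 * K)) * s x := by positivity
    simp only
    linarith
  have hρ0 : ∀ x, 0 < ρ x := fun x => by linarith [hρ1 x]
  have hρ2 : ∀ x, s x ≤ 2 * K * ρ x := fun x => by
    rw [hρ]
    have h3 : 2 * K * (1 / 2 + 1 / (2 * K) * s x) = K + s x := by field_simp
    simp only
    rw [h3]
    linarith
  have hρi : ∫ x, ρ x ∂lam = 1 := by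
    have e1 : ∫ x, s x ∂lam = K := by
      rw [hs]
      simp only
      rw [integral_finsetSum _ fun m hm => bm_int lam (bm_sq (hb m hm)),
        Finset.sum_congr rfl fun m hm => hn m hm, Finset.sum_const, nsmul_eq_mul, mul_one, hK]
    rw [hρ]
    simp only
    rw [integral_add (integrable_const _) ((bm_int lam hsB).const_mul _), integral_const_mul, e1]
    simp only [integral_const, probReal_univ, one_smul]
    field_simp
    norm_num
  obtain ⟨ν, hν⟩ : ∃ ν : Measure X, ν = lam.withDensity (fun x => ((ρ x).toNNReal : ENNReal)) :=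
    ⟨_, rfl⟩
  have hρm : Measurable fun x => (ρ x).toNNReal := hρB.1.real_toNNReal
  have hint : ∀ f : X → ℝ, ∫ x, f x ∂ν = ∫ x, ρ x * f x ∂lam := by
    intro f
    rw [hν, integral_withDensity_eq_integral_smul hρm]
    refine integral_congr_ae (Filter.Eventually.of_forall fun x => ?_)
    show (ρ x).toNNReal • f x = ρ x * f x
    rw [NNReal.smul_def, Real.coe_toNNReal _ (hρ0 x).le, smul_eq_mul]
  have hprob : IsProbabilityMeasure ν := by
    refine ⟨?_⟩
    rw [hν, withDensity_apply _ MeasurableSet.univ, Measure.restrict_univ]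
    have e1 : ∫⁻ x, ((ρ x).toNNReal : ENNReal) ∂lam = ENNReal.ofReal (∫ x, ρ x ∂lam) := by
      rw [ofReal_integral_eq_lintegral_ofReal (bm_int lam hρB)
        (Filter.Eventually.of_forall fun x => (hρ0 x).le)]
      rfl
    rw [e1, hρi, ENNReal.ofReal_one]
  refine ⟨ν, hprob, fun y m => if m ∈ M then b m y / ρ y * (1 / (N : ℝ)) else 0, ?_, ?_⟩
  · intro m
    by_cases hm : m ∈ M
    · simp only [hm, if_true]
      exact bm_mul (bm_div (hb m hm) hρB.1 hρ1) (bm_const _)
    · simp only [hm, if_false]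
      exact bm_const _
  · intro g hg
    obtain ⟨h, hh⟩ : ∃ h : ι → X → ℝ, h = fun m x => g x * b m x / ρ x := ⟨_, rfl⟩
    have hhB : ∀ m ∈ M, BM (h m) := fun m hm => by
      rw [hh]; exact bm_div (bm_mul hg (hb m hm)) hρB.1 hρ1
    have hhi : ∀ m ∈ M, ∫ x, h m x ∂ν = ∫ x, g x * b m x ∂lam := by
      intro m hm
      rw [hint]
      refine integral_congr_ae (Filter.Eventually.of_forall fun x => ?_)
      rw [hh]
      have := (hρ0 x).ne'
      simp only
      field_simp
    obtain ⟨c, hc⟩ : ∃ c : (Fin N → X) → ι → ℝ, c = fun y m => (1 / (N : ℝ)) * ∑ i, h m (y i) :=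
      ⟨_, rfl⟩
    have hpt : ∀ y : Fin N → X, ∫ x, (g x - ∑ i, g (y i) * ∑ m ∈ M,
        (if m ∈ M then b m (y i) / ρ (y i) * (1 / (N : ℝ)) else 0) * b m x) ^ 2 ∂lam =
        Ds lam b M g + ∑ m ∈ M, (c y m - ∫ x, h m x ∂ν) ^ 2 := by
      intro y
      have e1 : ∀ x, ∑ i, g (y i) * ∑ m ∈ M,
          (if m ∈ M then b m (y i) / ρ (y i) * (1 / (N : ℝ)) else 0) * b m x =
          ∑ m ∈ M, c y m * b m x := by
        intro x
        rw [hc, hh]
        simp only
        have e2 : ∀ i : Fin N, g (y i) * ∑ m ∈ M,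
            (if m ∈ M then b m (y i) / ρ (y i) * (1 / (N : ℝ)) else 0) * b m x =
            ∑ m ∈ M, (1 / (N : ℝ)) * (g (y i) * b m (y i) / ρ (y i)) * b m x := by
          intro i
          rw [Finset.mul_sum]
          refine Finset.sum_congr rfl fun m hm => ?_
          rw [if_pos hm]
          ring
        rw [Finset.sum_congr rfl fun i _ => e2 i, Finset.sum_comm]
        refine Finset.sum_congr rfl fun m _ => ?_
        rw [← Finset.sum_mul, ← Finset.mul_sum]
      simp only [e1]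
      rw [h2 X lam ι b M ⟨hb, hn, ho⟩ g hg (c y)]
      congr 1
      refine Finset.sum_congr rfl fun m hm => ?_
      rw [hhi m hm]
    simp only [hpt]
    have hcB : ∀ m ∈ M, BM (fun y : Fin N → X => (c y m - ∫ x, h m x ∂ν) ^ 2) := by
      intro m hm
      rw [hc]
      exact bm_sq (bm_sub (bm_mul (bm_const _) (bm_sum _ fun i _ =>
        bm_comp (hhB m hm) (measurable_pi_apply i))) (bm_const _))
    rw [integral_add (integrable_const _) (integrable_finsetSum _ fun m hm =>
      bm_int _ (hcB m hm)), integral_finsetSum _ fun m hm => bm_int _ (hcB m hm)]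
    simp only [integral_const, probReal_univ, one_smul]
    have e3 : ∀ m ∈ M, ∫ y : Fin N → X, (c y m - ∫ x, h m x ∂ν) ^ 2 ∂(Measure.pi fun _ => ν) ≤
        (1 / (N : ℝ)) * ∫ x, g x ^ 2 * b m x ^ 2 / ρ x ∂lam := by
      intro m hm
      have := h1 X ν (h m) (hhB m hm) N hN
      rw [hc]
      refine this.trans (le_of_eq ?_)
      congr 1
      rw [hint]
      refine integral_congr_ae (Filter.Eventually.of_forall fun x => ?_)
      rw [hh]
      have := (hρ0 x).ne'
      simp only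
      field_simp
    have hq : ∀ m ∈ M, BM (fun x => g x ^ 2 * b m x ^ 2 / ρ x) := fun m hm =>
      bm_div (bm_mul (bm_sq hg) (bm_sq (hb m hm))) hρB.1 hρ1
    have e4 : ∑ m ∈ M, ∫ y : Fin N → X, (c y m - ∫ x, h m x ∂ν) ^ 2 ∂(Measure.pi fun _ => ν) ≤
        2 * M.card / (N : ℝ) * ∫ x, g x ^ 2 ∂lam := by
      refine (Finset.sum_le_sum e3).trans ?_
      rw [← Finset.mul_sum, ← integral_finsetSum _ fun m hm => bm_int lam (hq m hm)]
      have e5 : ∫ x, ∑ m ∈ M, g x ^ 2 * b m x ^ 2 / ρ x ∂lam ≤ ∫ x, (2 * K) * g x ^ 2 ∂lam := by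
        refine integral_mono (integrable_finsetSum _ fun m hm => bm_int lam (hq m hm))
          ((bm_int lam (bm_sq hg)).const_mul _) fun x => ?_
        show ∑ m ∈ M, g x ^ 2 * b m x ^ 2 / ρ x ≤ (2 * K) * g x ^ 2
        rw [← Finset.sum_div, ← Finset.mul_sum, div_le_iff₀ (hρ0 x)]
        have h3 := hρ2 x
        rw [hs] at h3
        simp only at h3
        have h4 := sq_nonneg (g x)
        nlinarith
      rw [integral_const_mul] at e5
      calc (1 / (N : ℝ)) * ∫ x, ∑ m ∈ M, g x ^ 2 * b m x ^ 2 / ρ x ∂lam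
          ≤ (1 / (N : ℝ)) * (2 * K * ∫ x, g x ^ 2 ∂lam) :=
            mul_le_mul_of_nonneg_left e5 (by positivity)
        _ = 2 * M.card / (N : ℝ) * ∫ x, g x ^ 2 ∂lam := by rw [hK]; ring
    linarith

end Pool.Agent.KS6_89.RI
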