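import Pool.Agent.KS6_89.RI.Step1
import Pool.Graph.R_pool_sql_team_seeded_63374d34.N799.RI.L_ALG
import Pool.Graph.R_pool_sql_team_seeded_63374d34.N799.RI.L_BASIS
import Pool.Graph.R_pool_sql_team_seeded_63374d34.N799.RI.L_BUMP
import Pool.Graph.R_pool_sql_team_seeded_63374d34.N799.RI.L_CL
import Pool.Graph.R_pool_sql_team_seeded_63374d34.N799.RI.L_COMPL
import Pool.Graph.R_pool_sql_team_seeded_63374d34.N799.RI.L_COUNT
import Pool.Graph.R_pool_sql_team_seeded_63374d34.N799.RI.L_DIST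
import Pool.Graph.R_pool_sql_team_seeded_63374d34.N799.RI.L_GS
import Pool.Graph.R_pool_sql_team_seeded_63374d34.N799.RI.L_INT
import Pool.Graph.R_pool_sql_team_seeded_63374d34.N799.RI.L_LB
import Pool.Graph.R_pool_sql_team_seeded_63374d34.N799.RI.L_LIP
import Pool.Graph.R_pool_sql_team_seeded_63374d34.N799.RI.L_ORTH
import Pool.Graph.R_pool_sql_team_seeded_63374d34.N799.RI.L_QUAD
import Pool.Graph.R_pool_sql_team_seeded_63374d34.N799.RI.L_TAIL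
import Pool.Graph.R_pool_sql_team_seeded_63374d34.N799.RI.L_TAY
import Pool.Graph.R_pool_sql_team_seeded_63374d34.N799.RI.L_TH
import Pool.Graph.R_pool_sql_team_seeded_63374d34.N799.RI.L_UPD

set_option autoImplicit false

/-!
# The upper bound without a factor depending on the dimension
-/

namespace Pool.Agent.KS6_89.RI

open Pool.Agent.N799.RI Pool.Agent.N799.RI.StepH MeasureTheory Finset

theorem h_STEP1 : S_STEP1 := t_STEP1 t_VAR t_EXP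
theorem h_STEP : S_STEP := t_STEP h_STEP1 t_EXP
theorem h_QUAD : S_QUAD := t_QUAD t_VAR
theorem h_BASIS : S_BASIS := t_BASIS t_GS
theorem h_TAIL : S_TAIL := t_TAIL t_EXP t_ORTH t_UPD
theorem h_COMPL : S_COMPL := t_COMPL t_EXP t_ORTH
theorem h_DIST : S_DIST := t_DIST h_TAIL h_COMPL
theorem h_TH : S_TH := t_TH t_TAY t_CL
theorem h_LB : S_LB := t_LB t_BUMP

/-- the class of the functions `f (clamp x)` -/
def GG (d k : ℕ) : Set ((Fin d → ℝ) → ℝ) := {g | ∃ f ∈ FF d k, g = fun x => f (clamp x)}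

theorem gg_bm {d k : ℕ} (hd : 1 ≤ d) {g : (Fin d → ℝ) → ℝ} (hg : g ∈ GG d k) :
    BM g ∧ ∀ x, |g x| ≤ 1 := by
  obtain ⟨f, hf, rfl⟩ := hg
  have h := t_CL d k f hd hf
  exact ⟨⟨h.1, 1, h.2⟩, h.2⟩

theorem vv_anti (k L m : ℕ) : vv k (L + 1) m ≤ vv k L m := by
  unfold vv
  refine (Finset.sum_le_sum (f := fun l => 2 ^ (l - (L + 1))) (g := fun l => 2 ^ (l - L))
    fun l _ => Nat.pow_le_pow_right (by norm_num) (by omega)).trans ?_
  refine Finset.sum_le_sum_of_subset fun l hl => ?_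
  rw [Finset.mem_filter] at hl ⊢
  exact ⟨hl.1, by omega, hl.2.2⟩

theorem mem_jj {k d : ℕ} {e : ℕ → ℝ → ℝ} {L : ℕ} {m : Fin d → ℕ} :
    m ∈ JJ k d e L ↔ (∀ i, m i < k * 2 ^ (L + d)) ∧ (∑ i, vv k L (m i)) ≤ d ∧ Good e m := by
  classical
  unfold JJ Box
  simp only [Finset.mem_filter, Fintype.mem_piFinset, Finset.mem_range]

theorem jj_mono (k d : ℕ) (e : ℕ → ℝ → ℝ) (L : ℕ) : JJ k d e L ⊆ JJ k d e (L + 1) := by
  intro m hm
  rw [mem_jj] at hm ⊢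
  refine ⟨fun i => ?_, ?_, hm.2.2⟩
  · exact (hm.1 i).trans_le (Nat.mul_le_mul_left _ (Nat.pow_le_pow_right (by norm_num) (by omega)))
  · exact (Finset.sum_le_sum fun i _ => vv_anti k L (m i)).trans hm.2.1

theorem jj_good {k d : ℕ} {e : ℕ → ℝ → ℝ} {L : ℕ} {m : Fin d → ℕ} (hm : m ∈ JJ k d e L) :
    Good e m := (mem_jj.1 hm).2.2

theorem jj_card (k d : ℕ) (hk : 1 ≤ k) (hd : 1 ≤ d) (e : ℕ → ℝ → ℝ) (L : ℕ) :
    (JJ k d e L).card ≤ (6 * k * 2 ^ L) ^ d := by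
  refine (Finset.card_le_card ?_).trans (t_COUNT k d L hk hd)
  intro m hm
  rw [mem_jj] at hm
  unfold Box
  rw [Finset.mem_filter, Fintype.mem_piFinset]
  exact ⟨fun i => Finset.mem_range.2 (hm.1 i), hm.2.1⟩

theorem vv_zero {k L m : ℕ} (hm : m < k) : vv k L m = 0 := by
  unfold vv
  refine Finset.sum_eq_zero fun l hl => ?_
  rw [Finset.mem_filter] at hl
  have h1 : k * 1 ≤ k * 2 ^ l := Nat.mul_le_mul_left _ Nat.one_le_two_pow
  omega

theorem jj_nonempty (k d : ℕ) (e : ℕ → ℝ → ℝ) (he : IsBasis k e) (L : ℕ) :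
    (JJ k d e L).Nonempty := by
  obtain ⟨m, hm, hm1⟩ : ∃ m, m < k ∧ ∫ t, e m t ^ 2 ∂I1 = 1 := by
    by_contra hcon
    push Not at hcon
    have h0 : ∀ m, m < k → ∀ t, e m t = 0 := fun m hm =>
      (he.norm m).resolve_left (hcon m hm)
    obtain ⟨c, hc⟩ := he.span 0 0 (by norm_num)
    have h1 : ∀ᵐ t ∂I1, t ∈ Set.Ioo (0:ℝ) 1 := ae_restrict_mem measurableSet_Ioo
    obtain ⟨t, ht, ht1⟩ := (hc.and h1).exists
    have h2 : t ∈ dy 0 0 := by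
      unfold dy
      simp only [Nat.cast_zero, pow_zero, zero_add, div_one]
      exact ⟨ht1.1.le, ht1.2⟩
    rw [Set.indicator_of_mem h2] at ht
    have h3 : ∑ m ∈ range (k * 2 ^ 0), c m * e m t = 0 := by
      refine Finset.sum_eq_zero fun m hm => ?_
      rw [pow_zero, mul_one, Finset.mem_range] at hm
      rw [h0 m hm t, mul_zero]
    rw [h3] at ht
    norm_num at ht
  refine ⟨fun _ => m, ?_⟩
  rw [mem_jj]
  refine ⟨fun i => ?_, ?_, fun i => hm1⟩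
  · have h1 : k * 1 ≤ k * 2 ^ (L + d) := Nat.mul_le_mul_left _ Nat.one_le_two_pow
    omega
  · simp [vv_zero hm]

theorem scheme_mono {X : Type} [MeasurableSpace X] {lam : Measure X} {ι : Type} {b : ι → X → ℝ}
    {G : Set (X → ℝ)} {J : Finset ι} {n : ℕ} {a a' : ℝ} (h : HasScheme lam b G J n a)
    (ha : a ≤ a') : HasScheme lam b G J n a' := by
  obtain ⟨Ω, mΩ, P, hP, pts, c, h1, h2, h3⟩ := h
  exact ⟨Ω, mΩ, P, hP, pts, c, h1, h2, fun g hg => (h3 g hg).trans ha⟩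

theorem scheme_empty (d k : ℕ) (hd : 1 ≤ d) (e : ℕ → ℝ → ℝ) :
    HasScheme (Qd d) (EE e) (GG d k) (∅ : Finset (Fin d → ℕ)) 0 1 := by
  refine ⟨Unit, inferInstance, Measure.dirac (), inferInstance, fun k => k.elim0, fun k => k.elim0,
    fun k => k.elim0, fun k => k.elim0, fun g hg => ?_⟩
  obtain ⟨h1, h2⟩ := gg_bm hd hg
  have h3 : ∫ x, g x ^ 2 ∂(Qd d) ≤ 1 := by
    have h4 : ∫ x, g x ^ 2 ∂(Qd d) ≤ ∫ _x, (1:ℝ) ∂(Qd d) := by
      refine integral_mono (bm_int (Qd d) (bm_sq h1)) (integrable_const _) fun x => ?_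
      have h5 := h2 x
      have h6 : |g x| ^ 2 ≤ 1 := pow_le_one₀ (abs_nonneg _) h5
      rw [sq_abs] at h6
      exact h6
    simpa using h4
  simpa using h3

/-- the number of function values up to level `L` -/
def nL (k d L : ℕ) : ℕ := ∑ l ∈ range (L + 1), 4 ^ (k + 1) * (6 * k * 2 ^ l) ^ d

theorem nL_succ (k d L : ℕ) : nL k d (L + 1) = nL k d L + 4 ^ (k + 1) * (6 * k * 2 ^ (L + 1)) ^ d := by
  unfold nL
  rw [Finset.sum_range_succ]

theorem nL_le (k d L : ℕ) (hd : 1 ≤ d) : nL k d L ≤ 2 * (4 ^ (k + 1) * (6 * k * 2 ^ L) ^ d) := by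
  induction L with
  | zero =>
    unfold nL
    simp
    omega
  | succ L ih =>
    rw [nL_succ]
    have h1 : (6 * k * 2 ^ (L + 1)) ^ d = 2 ^ d * (6 * k * 2 ^ L) ^ d := by
      rw [← mul_pow]
      congr 1
      ring
    have h2 : 2 ≤ 2 ^ d := by
      calc 2 = 2 ^ 1 := by norm_num
        _ ≤ 2 ^ d := Nat.pow_le_pow_right (by norm_num) hd
    rw [h1]
    have h3 : 4 ^ (k + 1) * (2 ^ d * (6 * k * 2 ^ L) ^ d) = 2 ^ d * (4 ^ (k + 1) * (6 * k * 2 ^ L) ^ d) := by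
      ring
    rw [h3]
    have h4 : 2 * (4 ^ (k + 1) * (6 * k * 2 ^ L) ^ d) ≤ 2 ^ d * (4 ^ (k + 1) * (6 * k * 2 ^ L) ^ d) :=
      Nat.mul_le_mul_right _ h2
    omega

theorem step_num {k d L : ℕ} (hk : 1 ≤ k) (J a q : ℝ) (hJ : J ≤ ((6 * k * 2 ^ L : ℕ) : ℝ) ^ d)
    (hJ0 : 0 ≤ J) (ha : a ≤ 4 * q) (hq : 0 ≤ q) :
    2 * J / ((4 ^ (k + 1) * (6 * k * 2 ^ L) ^ d : ℕ) : ℝ) * a ≤ 2 * (q * (1 / 4) ^ k) := by
  have h1 : (0:ℝ) < ((6 * k * 2 ^ L : ℕ) : ℝ) ^ d := by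
    have : 0 < 6 * k * 2 ^ L := by positivity
    positivity
  push_cast at h1 hJ ⊢
  have h2 : 2 * J / (4 ^ (k + 1) * (6 * (k:ℝ) * 2 ^ L) ^ d) ≤ 2 / 4 ^ (k + 1) := by
    rw [div_le_div_iff₀ (by positivity) (by positivity)]
    have h4 : (0:ℝ) < 4 ^ (k + 1) := by positivity
    nlinarith
  have h5 : 0 ≤ 2 * J / (4 ^ (k + 1) * (6 * (k:ℝ) * 2 ^ L) ^ d) := by positivity
  calc 2 * J / (4 ^ (k + 1) * (6 * (k:ℝ) * 2 ^ L) ^ d) * a
      ≤ 2 * J / (4 ^ (k + 1) * (6 * (k:ℝ) * 2 ^ L) ^ d) * (4 * q) :=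
        mul_le_mul_of_nonneg_left ha h5
    _ ≤ 2 / 4 ^ (k + 1) * (4 * q) := mul_le_mul_of_nonneg_right h2 (by positivity)
    _ = 2 * (q * (1 / 4) ^ k) := by
        rw [pow_succ, one_div, inv_pow]
        field_simp

/-- the recursion -/
theorem scheme_level (k d : ℕ) (hk : 1 ≤ k) (hd : 1 ≤ d) (e : ℕ → ℝ → ℝ) (he : IsBasis k e) (L : ℕ) :
    HasScheme (Qd d) (EE e) (GG d k) (JJ k d e L) (nL k d L) (4 * ((1 / 4 : ℝ) ^ L) ^ k) := by
  have hG : ∀ g ∈ GG d k, BM g := fun g hg => (gg_bm hd hg).1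
  have hD : ∀ L, ∀ g ∈ GG d k, Ds (Qd d) (EE e) (JJ k d e L) g ≤ 2 * ((1 / 4 : ℝ) ^ L) ^ k := by
    intro L g hg
    have h1 := (gg_bm hd hg).1
    obtain ⟨f, hf, rfl⟩ := hg
    have := h_DIST k d e hk hd he _ h1 (h_TH d k e f hk he hf) (t_LIP d k f hk hf) L
    rw [one_div, inv_pow, ← one_div]
    exact this
  have hON : ∀ L, ON (Qd d) (EE e) (JJ k d e L) := fun L =>
    t_ORTH k d e he _ fun m hm => jj_good hm
  have hcard : ∀ L, (((JJ k d e L).card : ℕ) : ℝ) ≤ ((6 * k * 2 ^ L : ℕ) : ℝ) ^ d := fun L => by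
    exact_mod_cast jj_card k d hk hd e L
  have hNpos : ∀ L, 1 ≤ 4 ^ (k + 1) * (6 * k * 2 ^ L) ^ d := fun L => by
    have : 0 < 4 ^ (k + 1) * (6 * k * 2 ^ L) ^ d := by positivity
    omega
  induction L with
  | zero =>
    have h1 := h_STEP (Fin d → ℝ) (Qd d) (Fin d → ℕ) (EE e) (GG d k) ∅ (JJ k d e 0) 0
      (4 ^ (k + 1) * (6 * k * 2 ^ 0) ^ d) 1 (2 * ((1 / 4 : ℝ) ^ 0) ^ k) (Finset.empty_subset _)
      (jj_nonempty k d e he 0) (hON 0) (hNpos 0) hG (hD 0) (scheme_empty d k hd e)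
    have h2 : nL k d 0 = 0 + 4 ^ (k + 1) * (6 * k * 2 ^ 0) ^ d := by
      unfold nL; simp
    rw [h2]
    refine scheme_mono h1 ?_
    have h3 := step_num (k := k) (d := d) (L := 0) hk (((JJ k d e 0).card : ℕ) : ℝ) 1 1 (hcard 0)
      (Nat.cast_nonneg _) (by norm_num) (by norm_num)
    have h4 : (1 / 4 : ℝ) ^ k ≤ 1 := pow_le_one₀ (by norm_num) (by norm_num)
    simp only [pow_zero, one_pow, mul_one] at h3 ⊢
    linarith
  | succ L ih =>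
    have h1 := h_STEP (Fin d → ℝ) (Qd d) (Fin d → ℕ) (EE e) (GG d k) (JJ k d e L)
      (JJ k d e (L + 1)) (nL k d L)
      (4 ^ (k + 1) * (6 * k * 2 ^ (L + 1)) ^ d) _ _ (jj_mono k d e L)
      (jj_nonempty k d e he (L + 1)) (hON (L + 1)) (hNpos (L + 1)) hG (hD (L + 1)) ih
    rw [nL_succ]
    refine scheme_mono h1 ?_
    have h3 := step_num (k := k) (d := d) (L := L + 1) hk (((JJ k d e (L + 1)).card : ℕ) : ℝ)
      (4 * ((1 / 4 : ℝ) ^ L) ^ k) (((1 / 4 : ℝ) ^ L) ^ k) (hcard (L + 1))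
      (Nat.cast_nonneg _) le_rfl (by positivity)
    have h4 : ((1 / 4 : ℝ) ^ L) ^ k * (1 / 4) ^ k = ((1 / 4 : ℝ) ^ (L + 1)) ^ k := by
      rw [← mul_pow, ← pow_succ]
    rw [h4] at h3
    linarith

end Pool.Agent.KS6_89.RI
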